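import Pool.Agent.helper78.EQ.Spec

/-!
# Project EQ, module CXS: long zeta sums are small
-/

set_option autoImplicit false

open Complex MeasureTheory Set Metric

namespace Pool.Agent.EQ

theorem helper28_c1_norm (n : ℕ) : ‖c1 n‖ ≤ 1 := by
  unfold c1
  split_ifs <;> simp

theorem helper28_c1_sum : Summable (fun n : ℕ => ‖c1 n‖ * (n : ℝ) ^ (-(2 : ℝ))) := by
  have h : Summable (fun n : ℕ => (n : ℝ) ^ (-(2 : ℝ))) :=
    Real.summable_nat_rpow.2 (by norm_num)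
  refine Summable.of_nonneg_of_le (fun n => by positivity) (fun n => ?_) h
  calc ‖c1 n‖ * (n : ℝ) ^ (-(2 : ℝ)) ≤ 1 * (n : ℝ) ^ (-(2 : ℝ)) := by
        gcongr
        exact helper28_c1_norm n
    _ = _ := one_mul _

theorem helper28_Ds_c1 (s : ℂ) (hs : 1 < s.re) : riemannZeta s = Ds c1 s := by
  rw [zeta_eq_tsum_one_div_nat_cpow hs]
  unfold Ds
  refine tsum_congr fun n => ?_
  have hs0 : s ≠ 0 := by
    intro h
    rw [h] at hs
    simp at hs
    linarith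
  unfold c1
  split_ifs with h
  · subst h
    simp [hs0]
  · rw [cpow_neg, one_div, one_mul]

theorem helper28_CXS_small (hS : SHF_stmt) (hC : CVX_stmt) (ε : ℝ) (hε : 0 < ε) (hε1 : ε ≤ 1) :
    ∃ X₀ K : ℝ, 3 ≤ X₀ ∧ 1 ≤ K ∧ ∀ X t x : ℝ, X₀ ≤ X →
    2 * K * Real.log X ≤ t → t ≤ X → X ≤ x → x ≤ X ^ (4 : ℕ) →
    ‖S c1 x t‖ ≤ x ^ (1 / 2 : ℝ) * X ^ ε := by
  obtain ⟨C₁, hC₁, h1⟩ := hS (ε / 8) (by positivity) (by linarith)
  obtain ⟨C₂, hC₂, h2⟩ := hC (ε / 8) (by positivity) (by linarith)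
  set W : ℝ := ∑' n : ℕ, ‖c1 n‖ * (n : ℝ) ^ (-(2 : ℝ)) with hW
  have hW0 : 0 ≤ W := tsum_nonneg fun n => by positivity
  set M : ℝ := max (2 * C₁ * C₂ + C₁ * (2 * C₂ + W)) 1 with hM
  have hM1 : 1 ≤ M := le_max_right _ _
  refine ⟨max 3 (M ^ (8 / (3 * ε))), 10, le_max_left _ _, by norm_num, ?_⟩
  intro X t x hX ht htX hXx hx4
  have hX3 : 3 ≤ X := (le_max_left _ _).trans hX
  have hXM : M ^ (8 / (3 * ε)) ≤ X := (le_max_right _ _).trans hX
  have hX0 : 0 < X := by linarith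
  have hX1 : 1 ≤ X := by linarith
  have hlog : 1 ≤ Real.log X := by
    rw [Real.le_log_iff_exp_le hX0]
    exact (Real.exp_one_lt_d9.le.trans (by norm_num)).trans hX3
  have hx0 : 0 < x := by linarith
  have hx1 : 1 ≤ x := by linarith
  have hU : 10 * Real.log X ≤ t / 2 := by linarith
  set V : ℝ := C₂ * (2 * X) ^ (1 / 2 + ε / 8) with hV
  have hV0 : 0 ≤ V := by positivity
  have hreg : ∀ s : ℂ, ε / 8 ≤ s.re → s.re ≤ 2 → |s.im - t| ≤ 10 * Real.log X →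
      DifferentiableAt ℂ riemannZeta s ∧ ‖riemannZeta s‖ ≤ V := by
    intro s hs1 hs2 hs3
    have ha := (abs_le.1 hs3).1
    have hb := (abs_le.1 hs3).2
    have him : 1 ≤ s.im := by linarith
    have hs_ne : s ≠ 1 := by
      intro h
      rw [h] at him
      simp at him
      linarith
    refine ⟨differentiableAt_riemannZeta hs_ne, ?_⟩
    have habs : |s.im| = s.im := abs_of_pos (by linarith)
    have := h2 s (by linarith) (by rw [habs]; exact him)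
    rw [habs] at this
    refine this.trans ?_
    rw [hV]
    gcongr
    linarith
  have key := h1 c1 riemannZeta (ε / 8) t (10 * Real.log X) V W x le_rfl (by linarith)
    (by linarith) hx1 hV0 (by simp [c1]) helper28_c1_sum le_rfl
    (fun s hs => helper28_Ds_c1 s (by rw [hs]; norm_num)) hreg
  -- numerics
  have e1 : x ^ (ε / 8) ≤ X ^ (ε / 2) := by
    calc x ^ (ε / 8) ≤ (X ^ (4 : ℕ)) ^ (ε / 8) := by gcongr
      _ = X ^ (ε / 2) := by
        rw [← Real.rpow_natCast, ← Real.rpow_mul hX0.le]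
        congr 1
        push_cast
        ring
  have e2 : V ≤ 2 * C₂ * X ^ (1 / 2 + ε / 8) := by
    rw [hV, Real.mul_rpow (by norm_num) hX0.le]
    have : (2 : ℝ) ^ (1 / 2 + ε / 8) ≤ 2 := by
      calc (2 : ℝ) ^ (1 / 2 + ε / 8) ≤ (2 : ℝ) ^ (1 : ℝ) :=
            Real.rpow_le_rpow_of_exponent_le (by norm_num) (by linarith)
        _ = 2 := Real.rpow_one 2
    calc C₂ * ((2 : ℝ) ^ (1 / 2 + ε / 8) * X ^ (1 / 2 + ε / 8))
        ≤ C₂ * (2 * X ^ (1 / 2 + ε / 8)) := by gcongr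
      _ = _ := by ring
  have e3 : x ^ (ε / 8) * V ≤ 2 * C₂ * (x ^ (1 / 2 : ℝ) * X ^ (5 * ε / 8)) := by
    calc x ^ (ε / 8) * V ≤ X ^ (ε / 2) * (2 * C₂ * X ^ (1 / 2 + ε / 8)) := by gcongr
      _ = 2 * C₂ * (X ^ (ε / 2) * X ^ (1 / 2 + ε / 8)) := by ring
      _ = 2 * C₂ * (X ^ (1 / 2 : ℝ) * X ^ (5 * ε / 8)) := by
        rw [← Real.rpow_add hX0, ← Real.rpow_add hX0]
        congr 2
        ring
      _ ≤ _ := by gcongr
  have e4 : V ≤ 2 * C₂ * X := by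
    refine e2.trans ?_
    have : X ^ (1 / 2 + ε / 8) ≤ X ^ (1 : ℝ) :=
      Real.rpow_le_rpow_of_exponent_le hX1 (by linarith)
    rw [Real.rpow_one] at this
    gcongr
  have e5 : Real.exp (-(10 * Real.log X)) = (X ^ (10 : ℕ))⁻¹ := by
    rw [Real.exp_neg, mul_comm, Real.exp_mul, Real.exp_log hX0]
    norm_cast
  have e6 : x ^ (2 : ℕ) * (V + W) * Real.exp (-(10 * Real.log X)) ≤ 2 * C₂ + W := by
    rw [e5]
    have hx2 : x ^ (2 : ℕ) ≤ X ^ (8 : ℕ) := by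
      calc x ^ (2 : ℕ) ≤ (X ^ (4 : ℕ)) ^ (2 : ℕ) := by gcongr
        _ = _ := by ring
    have hXX : X ^ (10 : ℕ) = X ^ (8 : ℕ) * (X * X) := by ring
    rw [mul_inv_le_iff₀ (by positivity)]
    have hWX : W ≤ W * X := le_mul_of_one_le_right hW0 hX1
    calc x ^ (2 : ℕ) * (V + W) ≤ X ^ (8 : ℕ) * (2 * C₂ * X + W * X) := by gcongr
      _ = (2 * C₂ + W) * (X ^ (8 : ℕ) * X) := by ring
      _ ≤ (2 * C₂ + W) * (X ^ (8 : ℕ) * X * X) := by
        gcongr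
        exact le_mul_of_one_le_right (by positivity) hX1
      _ = (2 * C₂ + W) * X ^ (10 : ℕ) := by ring
  have hxh : 1 ≤ x ^ (1 / 2 : ℝ) := Real.one_le_rpow hx1 (by norm_num)
  have hX58 : 1 ≤ X ^ (5 * ε / 8) := Real.one_le_rpow hX1 (by positivity)
  have hMX : M ≤ X ^ (3 * ε / 8) := by
    calc M = (M ^ (8 / (3 * ε))) ^ (3 * ε / 8) := by
          rw [← Real.rpow_mul (by linarith)]
          rw [show 8 / (3 * ε) * (3 * ε / 8) = 1 by field_simp]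
          rw [Real.rpow_one]
      _ ≤ _ := by gcongr
  calc ‖S c1 x t‖ ≤ C₁ * (x ^ (ε / 8) * V + x ^ (2 : ℕ) * (V + W) *
        Real.exp (-(10 * Real.log X))) := key
    _ ≤ C₁ * (2 * C₂ * (x ^ (1 / 2 : ℝ) * X ^ (5 * ε / 8)) + (2 * C₂ + W)) := by gcongr
    _ ≤ C₁ * (2 * C₂ * (x ^ (1 / 2 : ℝ) * X ^ (5 * ε / 8)) +
        (2 * C₂ + W) * (x ^ (1 / 2 : ℝ) * X ^ (5 * ε / 8))) := by
        gcongr
        exact le_mul_of_one_le_right (by positivity) (one_le_mul_of_one_le_of_one_le hxh hX58)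
    _ = (2 * C₁ * C₂ + C₁ * (2 * C₂ + W)) * (x ^ (1 / 2 : ℝ) * X ^ (5 * ε / 8)) := by ring
    _ ≤ X ^ (3 * ε / 8) * (x ^ (1 / 2 : ℝ) * X ^ (5 * ε / 8)) := by
        gcongr
        exact (le_max_left _ _).trans hMX
    _ = x ^ (1 / 2 : ℝ) * (X ^ (3 * ε / 8) * X ^ (5 * ε / 8)) := by ring
    _ = x ^ (1 / 2 : ℝ) * X ^ ε := by
        rw [← Real.rpow_add hX0]
        congr 2
        ring

theorem CXS (hS : SHF_stmt) (hC : CVX_stmt) : CXS_stmt := by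
  intro ε hε
  obtain ⟨X₀, K, h1, h2, h3⟩ := helper28_CXS_small hS hC (min ε 1) (lt_min hε one_pos)
    (min_le_right _ _)
  refine ⟨X₀, K, h1, h2, fun X t x hX ht htX hXx hx4 => ?_⟩
  refine (h3 X t x hX ht htX hXx hx4).trans ?_
  have hX1 : 1 ≤ X := by linarith
  have hx0 : 0 < x := by linarith
  gcongr
  exact min_le_left _ _

end Pool.Agent.EQ
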